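import Pool.Agent.Lib.MP_6f811f_co.Small

/-!
Monochromatic tree covers of balanced complete bipartite graphs: the value `2r - 2` is attained
on `K_{n,n}` for all large `n`.
-/

set_option autoImplicit false

namespace Pool.Agent.Results.MP_6f811f_co.Balanced

open Pool.Agent.Lib.MP_6f811f_co

/-- For every number `r ≥ 2` of colours:
* `tc_r(K_{n,n}) = n` for `n ≤ r`;
* `tc_r(K_{n,n}) ≥ r + 1` for `n ≥ 2r`, if `r ≥ 3`;
* `tc_r(K_{n,n}) ≥ 2r - 2` for `n ≥ r(r-1)`, if `r` is a prime power (even for `K_{r-1,r(r-1)}`);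
* `2r - 2 ≤ tc_r(K_{n,n}) ≤ 2r - 1` for all `n ≥ 4 r³ log r`;
* the bound `tc_r(K_{n,m}) ≤ 2r - 2` for all `n, m ≥ 1` is equivalent to
  `tc_r(K_{n,n}) = 2r - 2` for all large `n`, and also to the same for all `n ≥ 4 r³ log r`. -/
theorem result (r : ℕ) (hr : 2 ≤ r) :
    (∀ n : ℕ, n ≤ r → tc r (K n n) = n) ∧
    (∀ n : ℕ, 3 ≤ r → 2 * r ≤ n → r + 1 ≤ tc r (K n n)) ∧
    (IsPrimePow r → ∀ n m : ℕ, r - 1 ≤ n → r * (r - 1) ≤ m → 2 * r - 2 ≤ tc r (K n m)) ∧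
    (∀ n : ℕ, 4 * (r : ℝ) ^ 3 * Real.log r ≤ n →
      2 * r - 2 ≤ tc r (K n n) ∧ tc r (K n n) ≤ 2 * r - 1) ∧
    ((∀ n m : ℕ, 1 ≤ n → 1 ≤ m → tc r (K n m) ≤ 2 * r - 2) ↔
      ∃ N : ℕ, ∀ n : ℕ, N ≤ n → tc r (K n n) = 2 * r - 2) ∧
    ((∀ n m : ℕ, 1 ≤ n → 1 ≤ m → tc r (K n m) ≤ 2 * r - 2) ↔
      ∀ n : ℕ, 4 * (r : ℝ) ^ 3 * Real.log r ≤ n → tc r (K n n) = 2 * r - 2) := by
  have i₀ : Fin r := ⟨0, by omega⟩
  have hlog : (0.69 : ℝ) ≤ Real.log r := by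
    have h1 : Real.log 2 ≤ Real.log r := Real.log_le_log (by norm_num) (by exact_mod_cast hr)
    have h2 := Real.log_two_gt_d9
    linarith
  have hbig : ∀ n : ℕ, 4 * (r : ℝ) ^ 3 * Real.log r ≤ n → r ≤ n := by
    intro n hn
    have h2 : (2 : ℝ) ≤ (r : ℝ) := by exact_mod_cast hr
    have h3 : (r : ℝ) ≤ 4 * (r : ℝ) ^ 3 * Real.log r := by
      have h4 : (1 : ℝ) ≤ (r : ℝ) ^ 2 := by nlinarith
      have h5 : (r : ℝ) ≤ (r : ℝ) ^ 3 := by nlinarith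
      have h6 : (0 : ℝ) ≤ (r : ℝ) ^ 3 := by positivity
      nlinarith
    exact_mod_cast h3.trans hn
  have hlow : ∀ n : ℕ, 4 * (r : ℝ) ^ 3 * Real.log r ≤ n → 2 * r - 2 ≤ tc r (K n n) := by
    intro n hn
    have h1 := hbig n hn
    exact random_lower hr (by omega) (count_cond hr hn)
  obtain ⟨N₀, hN₀⟩ := exists_nat_ge (4 * (r : ℝ) ^ 3 * Real.log r)
  have hN₀' : ∀ n : ℕ, N₀ ≤ n → 4 * (r : ℝ) ^ 3 * Real.log r ≤ n := by
    intro n hn
    exact hN₀.trans (by exact_mod_cast hn)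
  have hfwd : (∀ n m : ℕ, 1 ≤ n → 1 ≤ m → tc r (K n m) ≤ 2 * r - 2) →
      ∀ n : ℕ, 4 * (r : ℝ) ^ 3 * Real.log r ≤ n → tc r (K n n) = 2 * r - 2 := by
    intro H n hn
    have h1 := hbig n hn
    exact le_antisymm (H n n (by omega) (by omega)) (hlow n hn)
  have hbwd : (∃ N : ℕ, ∀ n : ℕ, N ≤ n → tc r (K n n) = 2 * r - 2) →
      ∀ n m : ℕ, 1 ≤ n → 1 ≤ m → tc r (K n m) ≤ 2 * r - 2 := by
    rintro ⟨N, hN⟩ n m hn hm
    have h1 := tc_mono (n := n) (m := m) (n' := max N (max n m)) (m' := max N (max n m)) hn hm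
      ((le_max_left n m).trans (le_max_right N _)) ((le_max_right n m).trans (le_max_right N _)) i₀
    rw [hN _ (le_max_left N _)] at h1
    exact h1
  refine ⟨?_, ?_, ?_, ?_, ?_, ?_⟩
  · intro n hn
    exact le_antisymm tc_le_card (latin_lower hn)
  · intro n hr3 hn
    exact circulant_lower hr3 (by omega) hn
  · intro hp n m hn hm
    exact primePow_lower hp hn hm
  · intro n hn
    have h1 := hbig n hn
    exact ⟨hlow n hn, tc_le_two_mul_sub_one (by omega) (by omega)⟩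
  · constructor
    · intro H
      exact ⟨N₀, fun n hn => hfwd H n (hN₀' n hn)⟩
    · exact hbwd
  · constructor
    · exact hfwd
    · intro H
      exact hbwd ⟨N₀, fun n hn => H n (hN₀' n hn)⟩

end Pool.Agent.Results.MP_6f811f_co.Balanced
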