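import Pool.Agent.Lib.MP_6f811f_co.GenMain

/-!
The Gyarfas-Lehel conjecture on monochromatic tree covers of complete bipartite graphs is false
for every large number of colours.
-/

set_option autoImplicit false

namespace Pool.Agent.Results.MP_6f811f_co.Disproof

open Pool.Agent.Lib.MP_6f811f_co

/-- For every large number `r` of colours, `tc_r(K_{n,m}) = 2r - 1` for all large `n` and `m`
(in particular `tc_r(K_{n,n}) = 2r - 1` for all large `n`), so that the conjectured bound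
`tc_r(K_{n,m}) ≤ 2r - 2` for all `n, m ≥ 1` fails for every large `r`. -/
theorem result : ∃ r₀ : ℕ, 2 ≤ r₀ ∧ ∀ r : ℕ, r₀ ≤ r →
    (∃ N : ℕ, ∀ n m : ℕ, N ≤ n → N ≤ m → tc r (K n m) = 2 * r - 1) ∧
    ¬ ∀ n m : ℕ, 1 ≤ n → 1 ≤ m → tc r (K n m) ≤ 2 * r - 2 := by
  obtain ⟨r₁, hr₁⟩ := tc_eq_gen
  refine ⟨r₁ + 2, by omega, ?_⟩
  intro r hr
  obtain ⟨N, hN⟩ := hr₁ r (by omega)
  refine ⟨⟨N, hN⟩, ?_⟩
  intro h
  have h1 := hN (N + 1) (N + 1) (by omega) (by omega)
  have h2 := h (N + 1) (N + 1) (by omega) (by omega)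
  omega

end Pool.Agent.Results.MP_6f811f_co.Disproof
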